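import Pool.Agent.helper56.P2.SpecU

/-! Row p2:UUNB (MP_063734_an): the bound for the points which are not unfolded -/

set_option autoImplicit false
set_option linter.unusedVariables false

namespace Pool.Agent.P2U

open MeasureTheory Set Filter Topology Metric Complex
open scoped ENNReal ContDiff

theorem UUNB_gz : Measurable gz := by
  unfold gz
  exact ENNReal.measurable_ofReal.comp (by fun_prop)

theorem UUNB (hCNT : UCNT_stmt) (hLWX : ULWX_stmt) (hSDE : USDE_stmt) (hMEA : UMEA_stmt) : UUNB_stmt := by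
  intro p hp
  obtain ⟨C, hC, hcnt⟩ := hCNT p hp
  refine ⟨C, hC, ?_⟩
  intro P Q r r0 hHol h0 h1 h2 hRg H hHm hH
  have hS : ∀ x ∈ NN P Q r0, ‖x‖ < 1 ∧ cx P Q (x, 0) ≠ 0 := by
    intro x hx
    exact ⟨lt_trans hx.1 (by norm_num), hx.2.1⟩
  rw [hLWX P Q r (by linarith) hHol (NN P Q r0) (hMEA P Q r r0 hHol h0 h1.le) hS]
  obtain ⟨N, hN⟩ : ∃ N : ℂ → ℝ≥0∞, N = fun ζ => ∫⁻ w in ball (0 : ℂ) r0, ∑' x : Rt P Q ζ w,
    ENNReal.ofReal ((‖cv P Q (x.1, w)‖ / ‖cx P Q (x.1, w)‖) ^ p) := ⟨_, rfl⟩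
  have hsde := hSDE P Q r r0 p hHol h0 h1.le (by linarith)
  calc ∫⁻ ζ, gz ζ * cnt {x : ℂ | x ∈ NN P Q r0 ∧ P (x, 0) = ζ * Q (x, 0)}
      ≤ ∫⁻ ζ, (2 * (gz ζ * H ζ) + ENNReal.ofReal C * (gz ζ * N ζ)) := by
        refine lintegral_mono_ae ?_
        filter_upwards [hRg, hH] with ζ hζ hζ2
        have h3 := hcnt P Q r r0 ζ hHol h0 h1 h2 hζ
        have h4 : cnt {x : ℂ | x ∈ NN P Q r0 ∧ P (x, 0) = ζ * Q (x, 0)} ≤ 2 * H ζ + ENNReal.ofReal C * N ζ := by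
          refine h3.trans (add_le_add ?_ ?_)
          · exact mul_le_mul_right hζ2 2
          · rw [hN]
        calc gz ζ * cnt {x : ℂ | x ∈ NN P Q r0 ∧ P (x, 0) = ζ * Q (x, 0)}
            ≤ gz ζ * (2 * H ζ + ENNReal.ofReal C * N ζ) := mul_le_mul_right h4 _
          _ = 2 * (gz ζ * H ζ) + ENNReal.ofReal C * (gz ζ * N ζ) := by ring
    _ = (∫⁻ ζ, 2 * (gz ζ * H ζ)) + ∫⁻ ζ, ENNReal.ofReal C * (gz ζ * N ζ) :=
        lintegral_add_left ((UUNB_gz.mul hHm).const_mul 2) _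
    _ = 2 * (∫⁻ ζ, gz ζ * H ζ) + ENNReal.ofReal C * ∫⁻ ζ, gz ζ * N ζ := by
        rw [lintegral_const_mul' 2 _ (by norm_num), lintegral_const_mul' _ _ ENNReal.ofReal_ne_top]
    _ ≤ _ := by
        refine add_le_add le_rfl (mul_le_mul_right ?_ _)
        rw [hN]
        exact hsde

end Pool.Agent.P2U
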